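import Mathlib
import Pool.Agent.Lib.MP_908f5f_co.Solve

/-!
Ternary square-free words that are square-free modulo every term of a sparse sequence.
-/

set_option autoImplicit false

namespace Pool.Agent.Results.MP_908f5f_co.SparseModuli

/-- The infinite word `w` (positions indexed from `0`) over the three letters of `Fin 3` is
square-free: no factor has the form `v v` with `v` a nonempty word, that is, for every starting
position `a` and every length `q ≥ 1` the two consecutive factors of length `q` starting at `a`
differ in some position. -/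
def SquareFree (w : ℕ → Fin 3) : Prop :=
  ∀ a q : ℕ, 0 < q → ∃ m, m < q ∧ w (a + m) ≠ w (a + q + m)

/-- The word `w` is square-free modulo `m`: the subsequence `w 0, w m, w (2 m), ...` is
square-free. -/
def SquareFreeMod (w : ℕ → Fin 3) (m : ℕ) : Prop := SquareFree fun n => w (m * n)

/-- `(p, k)`-sparse sequences of positive integers: strictly increasing, pairwise relatively
prime, `s 0 = p` and `s (i + 1) > k * s i`. -/
def IsSparse (p k : ℕ) (s : ℕ → ℕ) : Prop :=
  (∀ i, 0 < s i) ∧ StrictMono s ∧ (∀ i j, i ≠ j → Nat.Coprime (s i) (s j)) ∧ s 0 = p ∧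
    ∀ i, k * s i < s (i + 1)

/-- There are `p, k ≥ 1` such that for every `(p, k)`-sparse sequence some infinite ternary
square-free word is square-free modulo every term of the sequence. -/
theorem result : ∃ p k : ℕ, 1 ≤ p ∧ 1 ≤ k ∧ ∀ s : ℕ → ℕ, IsSparse p k s →
    ∃ w : ℕ → Fin 3, SquareFree w ∧ ∀ i, SquareFreeMod w (s i) := by
  refine ⟨2001, 2001, by norm_num, by norm_num, fun s hs => ?_⟩
  obtain ⟨hpos, -, -, h0, hk⟩ := hs
  let P : ℕ → ℕ := fun i => Nat.casesOn i 1 s
  obtain ⟨w, hw3, hw⟩ := Pool.Agent.Lib.MP_908f5f_co.main_exists P rfl (by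
    intro j
    cases j with
    | zero =>
      change 2000 * 1 < s 0
      omega
    | succ j =>
      change 2000 * s j < s (j + 1)
      have h1 := hk j
      have h2 := hpos j
      omega)
  refine ⟨fun n => ⟨w n, hw3 n⟩, fun a q hq => ?_, fun i a q hq => ?_⟩
  · obtain ⟨m, hm, hm2⟩ := hw 0 a q hq
    refine ⟨m, hm, fun hc => hm2 ?_⟩
    have h1 := congrArg Fin.val hc
    change w (1 * (a + m)) = w (1 * (a + q + m))
    rw [one_mul, one_mul]
    exact h1
  · obtain ⟨m, hm, hm2⟩ := hw (i + 1) a q hq
    exact ⟨m, hm, fun hc => hm2 (congrArg Fin.val hc)⟩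

end Pool.Agent.Results.MP_908f5f_co.SparseModuli
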